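import Mathlib
import Pool.Agent.TH880.NVe

/-! Zeros minus poles of a sequence of Nevanlinna functions is unbounded (helper880). The function `g`
is `- π cot (π z)`, and `m_j` is `g` plus a small rational function with simple poles at `1, …, K_j` and
at `N_j` equally spaced points of `(0, 1)`, and with zeros of order at least `N_j + j` very close to the
real points of a dense sequence. -/

set_option autoImplicit false

namespace Pool.Agent.Results.MP_9bfa98_an.ZerosMinusPoles

open Filter Topology
open Pool.Agent.TH880.NV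

/-- There are an open set `Ω ⊇ (0, 1)`, a function `g`, analytic on `Ω` and real on the real line, and
Nevanlinna functions `m j`, meromorphic on the plane, such that for all `0 ≤ c < d ≤ 1` the number of
poles of `m j` in `(c, d)` tends to infinity (and has no limiting density), while for EVERY bounded open
`U` with closure in `Ω` which meets `(0, 1)` the number of zeros of `m j - g` in `U` minus the number of
poles of `m j` in `U` tends to infinity. -/
theorem result : ∃ (Ω : Set ℂ) (g : ℂ → ℂ) (m : ℕ → ℂ → ℂ),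
    IsOpen Ω ∧ (∀ x : ℝ, 0 < x → x < 1 → (x : ℂ) ∈ Ω) ∧ AnalyticOnNhd ℂ g Ω ∧
    (∀ x : ℝ, (g x).im = 0) ∧ (∀ j, IsNevanlinna (m j)) ∧
    (∀ c d : ℝ, 0 ≤ c → c < d → d ≤ 1 →
      Tendsto (fun j => poleCount (m j) ((fun x : ℝ => (x : ℂ)) '' Set.Ioo c d)) atTop atTop) ∧
    (∀ c d : ℝ, 0 ≤ c → c < d → d ≤ 1 → ¬ ∃ μ : ℝ,
      Tendsto (fun j : ℕ => (poleCount (m j) ((fun x : ℝ => (x : ℂ)) '' Set.Ioo c d) : ℝ) / j) atTop (𝓝 μ)) ∧
    (∀ U : Set ℂ, IsOpen U → Bornology.IsBounded U → closure U ⊆ Ω →
      (∃ x : ℝ, 0 < x ∧ x < 1 ∧ (x : ℂ) ∈ U) →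
      Tendsto (fun j => (zeroCount (fun z => m j z - g z) U : ℤ) - poleCount (m j) U) atTop atTop) :=
  main

end Pool.Agent.Results.MP_9bfa98_an.ZerosMinusPoles
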